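import Pool.Agent.P.MP_8b60db_ag.Main

/-! A rank three bundle with vanishing third Chern class on a smooth affine threefold over the
rationals that has no free summand of rank one. -/

namespace Pool.Agent.Results.MP_8b60db_ag.Counterexample

theorem result : ∃ (A : Type) (_ : CommRing A) (_ : Algebra ℚ A),
    Algebra.Smooth ℚ A ∧
    (∀ (K : Type) [Field K] [Algebra ℚ K], IsDomain (TensorProduct ℚ K A)) ∧
    ringKrullDim A = 3 ∧
    ∃ (E : Type) (_ : AddCommGroup E) (_ : Module A E),
      Module.Finite A E ∧ Module.Projective A E ∧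
      (∀ p : PrimeSpectrum A, Module.rankAtStalk E p = 3) ∧
      (∃ (s : E) (P : Ideal A) (h : A), P.IsPrime ∧ ringKrullDim (A ⧸ P) = 1 ∧ h ∉ P ∧
        ∀ x : A, (∃ φ : Module.Dual A E, φ s = x) ↔ x ∈ P ⊔ Ideal.span {h}) ∧
      ∀ (E' : Type) [AddCommGroup E'] [Module A E'], IsEmpty (E ≃ₗ[A] E' × A) :=
  Pool.Agent.P.MP_8b60db_ag.main

end Pool.Agent.Results.MP_8b60db_ag.Counterexample
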