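import Pool.Agent.P.MP_8b60db_ag.G.Fields

/-! Rank three bundles with vanishing third Chern class and no free summand of rank one, on smooth
affine threefolds over discretely valued fields. -/

namespace Pool.Agent.Results.MP_8b60db_ag.ValuedFields

/-- `z` is the zero-cycle of `Spec (A ⧸ I)`: at every closed point the local ring of `A ⧸ I` has
finite length, and this length is the coefficient of `z`. -/
def IsCycle {A : Type} [CommRing A] (I : Ideal A) (z : MaximalSpectrum A →₀ ℤ) : Prop :=
  ∀ m : MaximalSpectrum A, ∃ n : ℕ,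
    Module.length (Localization.AtPrime m.asIdeal) (Localization.AtPrime m.asIdeal ⧸
      I.map (algebraMap A (Localization.AtPrime m.asIdeal))) = n ∧ z m = n

/-- The zero-cycles rationally equivalent to zero: the group generated by the divisors of nonzero
functions on integral closed curves. -/
noncomputable def RatZero (A : Type) [CommRing A] : AddSubgroup (MaximalSpectrum A →₀ ℤ) :=
  AddSubgroup.closure {z | ∃ (P : Ideal A) (h : A), P.IsPrime ∧ ringKrullDim (A ⧸ P) = 1 ∧
    h ∉ P ∧ IsCycle (P ⊔ Ideal.span {h}) z}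

/-- The top Chern class of `E` vanishes: `E` has a section with finite zero scheme whose cycle is
rationally equivalent to zero. -/
def TopChernZero (A E : Type) [CommRing A] [AddCommGroup E] [Module A E] : Prop :=
  ∃ (s : E) (z : MaximalSpectrum A →₀ ℤ),
    IsCycle (LinearMap.range (Module.Dual.eval A E s)) z ∧ z ∈ RatZero A

theorem result (O k : Type) [CommRing O] [IsDomain O] [IsDiscreteValuationRing O] [Field k]
    [CharZero k] [Algebra O k] [IsFractionRing O k]
    (h5 : ∃ n : ℕ, Odd n ∧ IsDiscreteValuationRing.addVal O 5 = n)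
    (h2 : ∀ x : O, IsUnit (x ^ 2 - 2)) :
    ∃ (A : Type) (_ : CommRing A) (_ : Algebra k A),
      Algebra.Smooth k A ∧
      (∀ (K : Type) [Field K] [Algebra k K], IsDomain (TensorProduct k K A)) ∧
      ringKrullDim A = 3 ∧
      ∃ (E : Type) (_ : AddCommGroup E) (_ : Module A E),
        Module.Finite A E ∧ Module.Projective A E ∧
        (∀ p : PrimeSpectrum A, Module.rankAtStalk E p = 3) ∧ TopChernZero A E ∧
        ∀ (E' : Type) [AddCommGroup E'] [Module A E'], IsEmpty (E ≃ₗ[A] E' × A) := by
  have : CharZero O := RingHom.charZero (algebraMap O k)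
  obtain ⟨v, hv⟩ := P.MP_8b60db_ag.GoodAux.good_frac (P.MP_8b60db_ag.G.good_dvr O h5 h2) k
  obtain ⟨A, _, _, hs, hd, h3, E, _, _, hf, hp, hr, ⟨s, Q, h, hQ, h1, hh, e⟩, hE⟩ :=
    P.MP_8b60db_ag.G.main hv
  have : IsNoetherianRing A := Algebra.FiniteType.isNoetherianRing k A
  obtain ⟨z, hz⟩ := P.MP_8b60db_ag.G.cycle_div hQ h1 hh
  exact ⟨A, _, _, hs, hd, h3, E, _, _, hf, hp, hr,
    ⟨s, z, e ▸ hz, AddSubgroup.subset_closure ⟨Q, h, hQ, h1, hh, hz⟩⟩, hE⟩

end Pool.Agent.Results.MP_8b60db_ag.ValuedFields
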